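import Pool.Agent.H78.BA.M2097152.Top
import Pool.Agent.H78.BA.Desc4

/-! Generated: description of the algebras by relations. -/

set_option linter.all false

namespace H78.BA.M2097152

open H78.BA

/-- the relations -/
def RL : List (ℕ × ℕ) :=
  [(2, 98), (3, 65106096), (3, 46342146), (3, 130710), (3, 114968880), (3, 118655430),
    (3, 1054227), (3, 17826133), (3, 69375), (3, 52691439), (3, 54653104), (3, 1068470),
    (3, 46662074), (3, 128182), (3, 246260), (3, 132284720), (3, 119179526), (3, 101999),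
    (3, 53215343), (3, 55410882), (3, 35130774), (3, 49020986), (3, 119310855), (3, 114894000),
    (3, 81422640), (3, 129761319), (3, 130665), (3, 61695), (2, 161), (2, 84), (2, 266),
    (4, 0x1b0d00036330000000020), (4, 0x1305800363b0000000020), (4, 0x200000001305802361b),
    (4, 0x101005140000405144145), (4, 0x200000001b0d0023613), (4, 0x145005100000405104145),
    (4, 0xb0d800363b0000000020), (4, 0x1b0d800363a0000000020), (4, 0x200000000b0d802361b),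
    (4, 0x45005140000405144145), (4, 0x200000001b0d802361a), (4, 0x145005140000405144144),
    (3, 115597318), (3, 50347579), (3, 89426261), (3, 105115650), (3, 126083076), (3, 68422485),
    (3, 16790079), (3, 93389157), (3, 33584187), (3, 113770672), (3, 68682150), (3, 223648),
    (3, 55849), (3, 166245), (3, 535606), (3, 105078786), (3, 104947718), (3, 109207558),
    (3, 109273092), (3, 1058331), (3, 140059), (3, 68419925), (3, 68486213), (3, 89391377),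
    (3, 85000517), (3, 9450521), (3, 144915), (2, 305), (2, 275), (2, 277), (3, 130281478),
    (3, 89525077), (3, 50361919), (3, 131328420), (3, 114031762), (3, 127371749), (3, 40466107),
    (3, 85724159), (3, 19183359), (2, 50), (2, 38), (2, 388), (2, 67), (2, 194), (2, 134),
    (2, 498), (2, 159), (2, 359), (2, 182), (2, 62), (2, 454), (2, 422), (2, 199), (2, 47),
    (2, 450), (2, 150), (2, 406), (2, 391), (2, 310), (2, 55), (2, 433), (2, 294), (2, 39),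
    (2, 210), (2, 135), (2, 283), (2, 451), (2, 211), (2, 341), (2, 502), (2, 446), (2, 487),
    (2, 191), (2, 223), (2, 367), (3, 114518432), (3, 113992880), (3, 130619), (3, 46847),
    (3, 85756743), (3, 93751653), (2, 335), (2, 95), (2, 187), (2, 485), (2, 442), (2, 500),
    (2, 420), (2, 178), (2, 356), (2, 15), (2, 71), (2, 58), (2, 308), (2, 402), (2, 293), (2, 23),
    (2, 147), (2, 263), (2, 484), (2, 186), (2, 79), (2, 436), (2, 434), (2, 59), (2, 357),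
    (2, 31), (2, 327), (2, 495), (2, 255), (2, 510), (2, 69), (2, 11), (2, 26), (2, 324), (2, 176),
    (2, 416), (1, 5), (1, 3), (1, 6)]

theorem cX : chkX dat = true := by decide +kernel
theorem cR : chkR dat.rels RL = true := by decide +kernel
theorem cM : mt dat.rM 3 2097152 = true := by decide +kernel
theorem hkd0 : ∀ x ∈ kn0, ∀ F ∈ Fam dat.k dat.MJ dat.JM dat.bs x.1 x.2.1, Dsc dat.k dat.MJ dat.P dat.AL F :=
  (List.forall_mem_cons.2 ⟨sub_desc ok.1 r0, (List.forall_mem_cons.2 ⟨sub_desc ok.1 r1, (List.forall_mem_cons.2 ⟨sub_desc ok.1 r2, (List.forall_mem_cons.2 ⟨sub_desc ok.1 r3, (List.forall_mem_cons.2 ⟨sub_desc ok.1 r4, (List.forall_mem_cons.2 ⟨sub_desc ok.1 r5, (List.forall_mem_cons.2 ⟨sub_desc ok.1 r6, (List.forall_mem_cons.2 ⟨sub_desc ok.1 r7, (List.forall_mem_cons.2 ⟨sub_desc ok.1 r8, (List.forall_mem_cons.2 ⟨sub_desc ok.1 r9,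 (List.forall_mem_cons.2 ⟨sub_desc ok.1 r10, (List.forall_mem_cons.2 ⟨sub_desc ok.1 r11, (List.forall_mem_cons.2 ⟨sub_desc ok.1 r12, (List.forall_mem_cons.2 ⟨sub_desc ok.1 r13, (List.forall_mem_cons.2 ⟨sub_desc ok.1 r14, (List.forall_mem_cons.2 ⟨sub_desc ok.1 r15, (List.forall_mem_cons.2 ⟨sub_desc ok.1 r16, (List.forall_mem_cons.2 ⟨sub_desc ok.1 r17, (List.forall_mem_cons.2 ⟨sub_desc ok.1 r18, (List.forall_mem_cons.2 ⟨sub_desc ok.1 r19, (fun _ hx => absurd hx List.not_mem_nil)⟩)⟩)⟩)⟩)⟩)⟩)⟩)⟩)⟩)⟩)⟩)⟩)⟩)⟩)⟩)⟩)⟩)⟩)⟩)⟩)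
theorem hkd1 : ∀ x ∈ kn1, ∀ F ∈ Fam dat.k dat.MJ dat.JM dat.bs x.1 x.2.1, Dsc dat.k dat.MJ dat.P dat.AL F :=
  (List.forall_mem_cons.2 ⟨sub_desc ok.1 r20, (List.forall_mem_cons.2 ⟨sub_desc ok.1 r21, (List.forall_mem_cons.2 ⟨sub_desc ok.1 r22, (List.forall_mem_cons.2 ⟨sub_desc ok.1 r23, (List.forall_mem_cons.2 ⟨sub_desc ok.1 r24, (List.forall_mem_cons.2 ⟨sub_desc ok.1 r25, (List.forall_mem_cons.2 ⟨sub_desc ok.1 r26, (List.forall_mem_cons.2 ⟨sub_desc ok.1 r27, (List.forall_mem_cons.2 ⟨sub_desc ok.1 r28, (List.forall_mem_cons.2 ⟨sub_desc ok.1 r29, (List.forall_mem_cons.2 ⟨sub_desc ok.1 r30, (List.forall_mem_cons.2 ⟨sub_desc ok.1 r31, (List.forall_mem_cons.2 ⟨sub_desc ok.1 r32, (List.forall_mem_cons.2 ⟨sub_desc ok.1 r33, (List.forall_mem_cons.2 ⟨sub_desc ok.1 r34, (List.forall_mem_cons.2 ⟨sub_desc ok.1 r35, (List.forall_mem_cons.2 ⟨sub_desc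 ok.1 r36, (List.forall_mem_cons.2 ⟨sub_desc ok.1 r37, (List.forall_mem_cons.2 ⟨sub_desc ok.1 r38, (List.forall_mem_cons.2 ⟨sub_desc ok.1 r39, (fun _ hx => absurd hx List.not_mem_nil)⟩)⟩)⟩)⟩)⟩)⟩)⟩)⟩)⟩)⟩)⟩)⟩)⟩)⟩)⟩)⟩)⟩)⟩)⟩)⟩)
theorem hkd2 : ∀ x ∈ kn2, ∀ F ∈ Fam dat.k dat.MJ dat.JM dat.bs x.1 x.2.1, Dsc dat.k dat.MJ dat.P dat.AL F :=
  (List.forall_mem_cons.2 ⟨sub_desc ok.1 r40, (List.forall_mem_cons.2 ⟨sub_desc ok.1 r41, (List.forall_mem_cons.2 ⟨sub_desc ok.1 r42, (List.forall_mem_cons.2 ⟨sub_desc ok.1 r43, (List.forall_mem_cons.2 ⟨sub_desc ok.1 r44, (List.forall_mem_cons.2 ⟨sub_desc ok.1 r45, (List.forall_mem_cons.2 ⟨sub_desc ok.1 r46, (List.forall_mem_cons.2 ⟨sub_desc ok.1 r47, (List.forall_mem_cons.2 ⟨sub_desc ok.1 r48, (List.forall_mem_cons.2 ⟨sub_desc ok.1 r49, (List.forall_mem_cons.2 ⟨sub_desc ok.1 r50, (List.forall_mem_cons.2 ⟨sub_desc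 ok.1 r51, (List.forall_mem_cons.2 ⟨sub_desc ok.1 r52, (List.forall_mem_cons.2 ⟨sub_desc ok.1 r53, (List.forall_mem_cons.2 ⟨sub_desc ok.1 r54, (List.forall_mem_cons.2 ⟨sub_desc ok.1 r55, (List.forall_mem_cons.2 ⟨sub_desc ok.1 r56, (List.forall_mem_cons.2 ⟨sub_desc ok.1 r57, (List.forall_mem_cons.2 ⟨sub_desc ok.1 r58, (List.forall_mem_cons.2 ⟨sub_desc ok.1 r59, (fun _ hx => absurd hx List.not_mem_nil)⟩)⟩)⟩)⟩)⟩)⟩)⟩)⟩)⟩)⟩)⟩)⟩)⟩)⟩)⟩)⟩)⟩)⟩)⟩)⟩)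
theorem hkd3 : ∀ x ∈ kn3, ∀ F ∈ Fam dat.k dat.MJ dat.JM dat.bs x.1 x.2.1, Dsc dat.k dat.MJ dat.P dat.AL F :=
  (List.forall_mem_cons.2 ⟨sub_desc ok.1 r60, (List.forall_mem_cons.2 ⟨sub_desc ok.1 r61, (List.forall_mem_cons.2 ⟨sub_desc ok.1 r62, (List.forall_mem_cons.2 ⟨sub_desc ok.1 r63, (List.forall_mem_cons.2 ⟨sub_desc ok.1 r64, (List.forall_mem_cons.2 ⟨sub_desc ok.1 r65, (List.forall_mem_cons.2 ⟨sub_desc ok.1 r66, (List.forall_mem_cons.2 ⟨sub_desc ok.1 r67, (List.forall_mem_cons.2 ⟨sub_desc ok.1 r68, (List.forall_mem_cons.2 ⟨sub_desc ok.1 r69, (List.forall_mem_cons.2 ⟨sub_desc ok.1 r70, (List.forall_mem_cons.2 ⟨sub_desc ok.1 r71, (List.forall_mem_cons.2 ⟨sub_desc ok.1 r72, (List.forall_mem_cons.2 ⟨sub_desc ok.1 r73, (List.forall_mem_cons.2 ⟨sub_desc ok.1 r74, (List.forall_mem_cons.2 ⟨sub_desc ok.1 r75, (List.forall_mem_cons.2 ⟨sub_desc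 ok.1 r76, (List.forall_mem_cons.2 ⟨sub_desc ok.1 r77, (List.forall_mem_cons.2 ⟨sub_desc ok.1 r78, (List.forall_mem_cons.2 ⟨sub_desc ok.1 r79, (fun _ hx => absurd hx List.not_mem_nil)⟩)⟩)⟩)⟩)⟩)⟩)⟩)⟩)⟩)⟩)⟩)⟩)⟩)⟩)⟩)⟩)⟩)⟩)⟩)⟩)
theorem hkd4 : ∀ x ∈ kn4, ∀ F ∈ Fam dat.k dat.MJ dat.JM dat.bs x.1 x.2.1, Dsc dat.k dat.MJ dat.P dat.AL F :=
  (List.forall_mem_cons.2 ⟨sub_desc ok.1 r80, (List.forall_mem_cons.2 ⟨sub_desc ok.1 r81, (List.forall_mem_cons.2 ⟨sub_desc ok.1 r82, (List.forall_mem_cons.2 ⟨sub_desc ok.1 r83, (List.forall_mem_cons.2 ⟨sub_desc ok.1 r84, (List.forall_mem_cons.2 ⟨sub_desc ok.1 r85, (List.forall_mem_cons.2 ⟨sub_desc ok.1 r86, (List.forall_mem_cons.2 ⟨sub_desc ok.1 r87, (List.forall_mem_cons.2 ⟨sub_desc ok.1 r88, (List.forall_mem_cons.2 ⟨sub_desc ok.1 r89, (List.forall_mem_cons.2 ⟨sub_desc ok.1 r90, (List.forall_mem_cons.2 ⟨sub_desc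 ok.1 r91, (List.forall_mem_cons.2 ⟨sub_desc ok.1 r92, (List.forall_mem_cons.2 ⟨sub_desc ok.1 r93, (List.forall_mem_cons.2 ⟨sub_desc ok.1 r94, (List.forall_mem_cons.2 ⟨sub_desc ok.1 r95, (List.forall_mem_cons.2 ⟨sub_desc ok.1 r96, (List.forall_mem_cons.2 ⟨sub_desc ok.1 r97, (List.forall_mem_cons.2 ⟨sub_desc ok.1 r98, (List.forall_mem_cons.2 ⟨sub_desc ok.1 r99, (fun _ hx => absurd hx List.not_mem_nil)⟩)⟩)⟩)⟩)⟩)⟩)⟩)⟩)⟩)⟩)⟩)⟩)⟩)⟩)⟩)⟩)⟩)⟩)⟩)⟩)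
theorem hkd5 : ∀ x ∈ kn5, ∀ F ∈ Fam dat.k dat.MJ dat.JM dat.bs x.1 x.2.1, Dsc dat.k dat.MJ dat.P dat.AL F :=
  (List.forall_mem_cons.2 ⟨sub_desc ok.1 r100, (List.forall_mem_cons.2 ⟨sub_desc ok.1 r101, (List.forall_mem_cons.2 ⟨sub_desc ok.1 r102, (List.forall_mem_cons.2 ⟨sub_desc ok.1 r103, (List.forall_mem_cons.2 ⟨sub_desc ok.1 r104, (List.forall_mem_cons.2 ⟨sub_desc ok.1 r105, (List.forall_mem_cons.2 ⟨sub_desc ok.1 r106, (List.forall_mem_cons.2 ⟨sub_desc ok.1 r107, (List.forall_mem_cons.2 ⟨sub_desc ok.1 r108, (List.forall_mem_cons.2 ⟨sub_desc ok.1 r109, (List.forall_mem_cons.2 ⟨sub_desc ok.1 r110, (List.forall_mem_cons.2 ⟨sub_desc ok.1 r111, (List.forall_mem_cons.2 ⟨sub_desc ok.1 r112, (List.forall_mem_cons.2 ⟨sub_desc ok.1 r113, (List.forall_mem_cons.2 ⟨sub_desc ok.1 r114, (List.forall_mem_cons.2 ⟨sub_desc ok.1 r115, (List.forall_mem_cons.2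 ⟨sub_desc ok.1 r116, (List.forall_mem_cons.2 ⟨sub_desc ok.1 r117, (List.forall_mem_cons.2 ⟨sub_desc ok.1 r118, (List.forall_mem_cons.2 ⟨sub_desc ok.1 r119, (fun _ hx => absurd hx List.not_mem_nil)⟩)⟩)⟩)⟩)⟩)⟩)⟩)⟩)⟩)⟩)⟩)⟩)⟩)⟩)⟩)⟩)⟩)⟩)⟩)⟩)
theorem hkd6 : ∀ x ∈ kn6, ∀ F ∈ Fam dat.k dat.MJ dat.JM dat.bs x.1 x.2.1, Dsc dat.k dat.MJ dat.P dat.AL F :=
  (List.forall_mem_cons.2 ⟨sub_desc ok.1 r120, (List.forall_mem_cons.2 ⟨sub_desc ok.1 r121, (List.forall_mem_cons.2 ⟨sub_desc ok.1 r122, (List.forall_mem_cons.2 ⟨sub_desc ok.1 r123, (List.forall_mem_cons.2 ⟨sub_desc ok.1 r124, (List.forall_mem_cons.2 ⟨sub_desc ok.1 r125, (List.forall_mem_cons.2 ⟨sub_desc ok.1 r126, (List.forall_mem_cons.2 ⟨sub_desc ok.1 r127, (List.forall_mem_cons.2 ⟨sub_desc ok.1 r128, (List.forall_mem_cons.2 ⟨sub_desc ok.1 r129, (List.forall_mem_cons.2 ⟨sub_desc ok.1 r130, (List.forall_mem_cons.2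 ⟨sub_desc ok.1 r131, (List.forall_mem_cons.2 ⟨sub_desc ok.1 r132, (List.forall_mem_cons.2 ⟨sub_desc ok.1 r133, (List.forall_mem_cons.2 ⟨sub_desc ok.1 r134, (List.forall_mem_cons.2 ⟨sub_desc ok.1 r135, (List.forall_mem_cons.2 ⟨sub_desc ok.1 r136, (List.forall_mem_cons.2 ⟨sub_desc ok.1 r137, (List.forall_mem_cons.2 ⟨sub_desc ok.1 r138, (List.forall_mem_cons.2 ⟨sub_desc ok.1 r139, (fun _ hx => absurd hx List.not_mem_nil)⟩)⟩)⟩)⟩)⟩)⟩)⟩)⟩)⟩)⟩)⟩)⟩)⟩)⟩)⟩)⟩)⟩)⟩)⟩)⟩)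
theorem hkd7 : ∀ x ∈ kn7, ∀ F ∈ Fam dat.k dat.MJ dat.JM dat.bs x.1 x.2.1, Dsc dat.k dat.MJ dat.P dat.AL F :=
  (List.forall_mem_cons.2 ⟨sub_desc ok.1 r140, (List.forall_mem_cons.2 ⟨sub_desc ok.1 r141, (List.forall_mem_cons.2 ⟨sub_desc ok.1 r142, (List.forall_mem_cons.2 ⟨sub_desc ok.1 r143, (List.forall_mem_cons.2 ⟨sub_desc ok.1 r144, (List.forall_mem_cons.2 ⟨sub_desc ok.1 r145, (List.forall_mem_cons.2 ⟨sub_desc ok.1 r146, (List.forall_mem_cons.2 ⟨sub_desc ok.1 r147, (List.forall_mem_cons.2 ⟨sub_desc ok.1 r148, (List.forall_mem_cons.2 ⟨sub_desc ok.1 r149, (List.forall_mem_cons.2 ⟨sub_desc ok.1 r150, (List.forall_mem_cons.2 ⟨sub_desc ok.1 r151, (List.forall_mem_cons.2 ⟨sub_desc ok.1 r152, (List.forall_mem_cons.2 ⟨sub_desc ok.1 r153, (List.forall_mem_cons.2 ⟨sub_desc ok.1 r154, (List.forall_mem_cons.2 ⟨sub_desc ok.1 r155, (List.forall_mem_cons.2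 ⟨sub_desc ok.1 r156, (List.forall_mem_cons.2 ⟨sub_desc ok.1 r157, (List.forall_mem_cons.2 ⟨sub_desc ok.1 r158, (List.forall_mem_cons.2 ⟨sub_desc ok.1 r159, (fun _ hx => absurd hx List.not_mem_nil)⟩)⟩)⟩)⟩)⟩)⟩)⟩)⟩)⟩)⟩)⟩)⟩)⟩)⟩)⟩)⟩)⟩)⟩)⟩)⟩)
theorem hkd8 : ∀ x ∈ kn8, ∀ F ∈ Fam dat.k dat.MJ dat.JM dat.bs x.1 x.2.1, Dsc dat.k dat.MJ dat.P dat.AL F :=
  (List.forall_mem_cons.2 ⟨sub_desc ok.1 r160, (List.forall_mem_cons.2 ⟨sub_desc ok.1 r161, (List.forall_mem_cons.2 ⟨sub_desc ok.1 r162, (List.forall_mem_cons.2 ⟨sub_desc ok.1 r163, (List.forall_mem_cons.2 ⟨sub_desc ok.1 r164, (List.forall_mem_cons.2 ⟨sub_desc ok.1 r165, (List.forall_mem_cons.2 ⟨sub_desc ok.1 r166, (List.forall_mem_cons.2 ⟨sub_desc ok.1 r167, (List.forall_mem_cons.2 ⟨sub_desc ok.1 r168, (List.forall_mem_cons.2 ⟨sub_desc ok.1 r169, (List.forall_mem_cons.2 ⟨sub_desc ok.1 r170, (List.forall_mem_cons.2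 ⟨sub_desc ok.1 r171, (List.forall_mem_cons.2 ⟨sub_desc ok.1 r172, (fun _ hx => absurd hx List.not_mem_nil)⟩)⟩)⟩)⟩)⟩)⟩)⟩)⟩)⟩)⟩)⟩)⟩)⟩)
theorem hkd : ∀ x ∈ kn, ∀ F ∈ Fam dat.k dat.MJ dat.JM dat.bs x.1 x.2.1, Dsc dat.k dat.MJ dat.P dat.AL F :=
  List.forall_mem_append.2 ⟨hkd0, List.forall_mem_append.2 ⟨hkd1, List.forall_mem_append.2 ⟨hkd2, List.forall_mem_append.2 ⟨hkd3, List.forall_mem_append.2 ⟨hkd4, List.forall_mem_append.2 ⟨hkd5, List.forall_mem_append.2 ⟨hkd6, List.forall_mem_append.2 ⟨hkd7, hkd8⟩⟩⟩⟩⟩⟩⟩⟩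
theorem descr : Full 2097152 RL :=
  full_of cA cB (by decide +kernel) (chkV2_sound cV) cAL cP cPT cX cM cR (dat_desc cA ok hkd rt)
theorem cI : chkI (dat.rels.zip RL) dat.AL = true := by decide +kernel
theorem irr : Irr 2097152 RL := irr_of cA (chkV2_sound cV) cAL cP cX cM cR cI

end H78.BA.M2097152
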